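import Pool.Agent.TH773.FA.G7Fin
import Pool.Agent.TH773.CL.Fin

/-!
# Turán's `(3,4)`-problem: density `0.545` without six vertices spanning 14 edges

Six vertices of a `K_4^3`-free 3-graph span at most 14 edges, and 14 is attained by the subgraph of
Turán's construction induced by two vertices of each part. It is proved that
`1200 n³ |H| ≤ 109 n⁶ + 1920 n⁵ + 92160 N` for every `K_4^3`-free 3-graph `H` on `n` vertices, where
`N` is the number of six-element vertex sets which span exactly 14 edges. So the Turán density of the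
family consisting of `K_4^3` and all 3-graphs with six vertices and 14 edges is at most
`0.545 < 5/9`, and `K_4^3`-free 3-graphs whose density is near `5/9` or larger contain a positive
proportion of six-element sets with 14 edges. (The maximum of `N` is known to be asymptotically
`n⁶ / 5832`.)

The inequality for the induced copies of one of these 3-graphs is in the starting library
(`Pool.Agent.TH773.FA.G7`, a sum of squares certificate for six-vertex structures checked by the
kernel), where it served as a lemma.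
-/

set_option autoImplicit false
set_option maxRecDepth 100000
set_option maxHeartbeats 4000000
open Finset
open scoped Classical

namespace Pool.Agent.Results.MP_f1799f_co.FourteenEdgesUnavoidable

/-- The 3-graph `H` has no four vertices spanning all four triples. -/
def K43Free {n : ℕ} (H : Finset (Finset (Fin n))) : Prop :=
  ∀ S : Finset (Fin n), S.card = 4 → ∃ s ⊆ S, s.card = 3 ∧ s ∉ H

/-- The number of six-element vertex sets that contain exactly 14 members of `H`. -/
noncomputable def sextuples14 {n : ℕ} (H : Finset (Finset (Fin n))) : ℕ :=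
  (((univ : Finset (Fin n)).powersetCard 6).filter fun S =>
    (H.filter fun e => e ⊆ S).card = 14).card

open Pool.Agent.H122R2.N6 Pool.Agent.H37R3.Pen Pool.Agent.H37R3.Cop Pool.Agent.H37R3.CopL
open Pool.Agent.TH773.CL

theorem img_eq {α β : Type} (i1 i2 : DecidableEq β) (f : α → β) (s : Finset α) :
    @Finset.image α β i1 f s = @Finset.image α β i2 f s := by
  rw [Subsingleton.elim i1 i2]

/-- a set inducing the listed 3-graph spans 14 edges -/
theorem induced_card {n : ℕ} {H : Finset (Finset (Fin n))} (hH : ∀ e ∈ H, e.card = 3)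
    {S : Finset (Fin n)} (h : IndL [Pool.Agent.TH773.FA.G7.F0] H S) :
    (H.filter fun e => e ⊆ S).card = 14 := by
  obtain ⟨F, hF, f, hf, hS, h⟩ := h
  rw [List.mem_singleton] at hF
  subst hF
  subst hS
  have h0 := card_span hH hf
  have h5 : (∑ t ∈ (univ : Finset (Fin 6)).powersetCard 3,
      if t ∈ Pool.Agent.TH773.FA.G7.F0 then 1 else 0) = 14 := by
    unfold Pool.Agent.TH773.FA.G7.F0
    decide +kernel
  have h7 := h0.trans ((sum_congr rfl fun t ht => by
    have h2 := h t (mem_powersetCard.mp ht).2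
    rw [img_eq _ (instDecidableEqFin n)] at h2
    exact if_congr h2 rfl rfl).trans h5)
  refine (congrArg Finset.card (Finset.ext fun e => ?_)).trans h7
  rw [mem_filter, mem_filter, img_eq _ (instDecidableEqFin n)]

/-- The inequality. -/
theorem bound {n : ℕ} {H : Finset (Finset (Fin n))} (h3 : ∀ e ∈ H, e.card = 3) (hK : K43Free H) :
    1200 * n ^ 3 * H.card ≤ 109 * n ^ 6 + 1920 * n ^ 5 + 92160 * sextuples14 H := by
  have h := Pool.Agent.TH773.FA.G7.main h3 hK
  have h1 : (((univ : Finset (Fin n)).powersetCard 6).filter fun S =>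
      IndL [Pool.Agent.TH773.FA.G7.F0] H S).card ≤ sextuples14 H := by
    unfold sextuples14
    refine card_le_card fun S hS => ?_
    rw [mem_filter] at hS ⊢
    exact ⟨hS.1, induced_card h3 hS.2⟩
  rw [Fintype.card_fin] at h
  generalize (((univ : Finset (Fin n)).powersetCard 6).filter fun S =>
      IndL [Pool.Agent.TH773.FA.G7.F0] H S).card = a at h h1
  have h2 : 1200 * n ^ 3 * H.card ≤ 109 * n ^ 6 + 128 * (720 * a + 15 * n ^ 5) := by
    refine Nat.le_of_mul_le_mul_left (c := 18000000000000000) ?_ (by norm_num)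
    calc _ = 1080 * 20000000000000000 * n ^ 3 * H.card := by ring
      _ ≤ _ := h
      _ = _ := by ring
  calc _ ≤ 109 * n ^ 6 + 128 * (720 * a + 15 * n ^ 5) := h2
    _ ≤ 109 * n ^ 6 + 128 * (720 * sextuples14 H + 15 * n ^ 5) := by gcongr
    _ = _ := by ring

/-- **Main theorem.** For a `K_4^3`-free 3-graph `H` on `n` vertices with `N` six-element vertex sets
spanning exactly 14 edges, `1200 n³ |H| ≤ 109 n⁶ + 1920 n⁵ + 92160 N`. Consequently, for every
`ε > 0`: for large `n` every `K_4^3`-free 3-graph with more than `(0.545 + ε) C(n,3)` edges contains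
more than `(ε / 1200) n⁶` six-element vertex sets that span exactly 14 edges. -/
theorem result :
    (∀ (n : ℕ) (H : Finset (Finset (Fin n))), (∀ e ∈ H, e.card = 3) → K43Free H →
      1200 * n ^ 3 * H.card ≤ 109 * n ^ 6 + 1920 * n ^ 5 + 92160 * sextuples14 H) ∧
    (∀ ε : ℝ, 0 < ε → ∃ n0 : ℕ, ∀ n, n0 ≤ n → ∀ H : Finset (Finset (Fin n)),
      (∀ e ∈ H, e.card = 3) → K43Free H → (0.545 + ε) * (n.choose 3 : ℝ) < H.card →
      ε / 1200 * (n : ℝ) ^ 6 < sextuples14 H) := by
  refine ⟨fun n H h3 hK => bound h3 hK, fun ε hε => ?_⟩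
  obtain ⟨n1, hn1⟩ := exists_nat_ge ((50 : ℝ) / ε)
  refine ⟨max n1 12, fun n hn H h3 hK hH => ?_⟩
  have a1 : n1 ≤ n := (le_max_left _ _).trans hn
  have a2 : 12 ≤ n := (le_max_right _ _).trans hn
  have hb := bound h3 hK
  have hb' : 1200 * (n : ℝ) ^ 3 * H.card ≤ 109 * (n : ℝ) ^ 6 + 1920 * (n : ℝ) ^ 5 +
      92160 * sextuples14 H := by exact_mod_cast hb
  obtain ⟨-, c2⟩ := choose3 (by omega : 6 ≤ n)
  have hn12 : (12 : ℝ) ≤ n := by exact_mod_cast a2
  have h10 : (50 : ℝ) ≤ ε * n := by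
    rw [div_le_iff₀ hε] at hn1
    have a3 : (n1 : ℝ) ≤ n := by exact_mod_cast a1
    have a4 : (n1 : ℝ) * ε ≤ n * ε := mul_le_mul_of_nonneg_right a3 hε.le
    linarith
  have p5 : (0 : ℝ) ≤ (n : ℝ) ^ 5 := by positivity
  have h11 : (50 : ℝ) * (n : ℝ) ^ 5 ≤ ε * (n : ℝ) ^ 6 := by
    have := mul_le_mul_of_nonneg_right h10 p5
    linarith [this, show (ε * n) * (n : ℝ) ^ 5 = ε * (n : ℝ) ^ 6 by ring]
  have h12 : (12 : ℝ) * (ε * (n : ℝ) ^ 5) ≤ ε * (n : ℝ) ^ 6 := by
    have := mul_le_mul_of_nonneg_right hn12 (mul_nonneg hε.le p5)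
    linarith [this, show (n : ℝ) * (ε * (n : ℝ) ^ 5) = ε * (n : ℝ) ^ 6 by ring]
  have h13 : (0.545 + ε) * ((n : ℝ) ^ 3 - 3 * (n : ℝ) ^ 2) ≤ 6 * H.card := by
    have h14 : (0.545 + ε) * ((n : ℝ) ^ 3 - 3 * (n : ℝ) ^ 2) ≤
        (0.545 + ε) * (6 * (n.choose 3 : ℝ)) :=
      mul_le_mul_of_nonneg_left (by linarith) (by linarith)
    linarith
  have h15 : 200 * (n : ℝ) ^ 3 * ((0.545 + ε) * ((n : ℝ) ^ 3 - 3 * (n : ℝ) ^ 2)) ≤
      200 * (n : ℝ) ^ 3 * (6 * H.card) :=
    mul_le_mul_of_nonneg_left h13 (by positivity)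
  have h16 : 200 * (n : ℝ) ^ 3 * ((0.545 + ε) * ((n : ℝ) ^ 3 - 3 * (n : ℝ) ^ 2)) =
      109 * (n : ℝ) ^ 6 + 200 * (ε * (n : ℝ) ^ 6) - 327 * (n : ℝ) ^ 5 -
        600 * (ε * (n : ℝ) ^ 5) := by ring
  have h17 : 0 < (n : ℝ) ^ 6 := by
    have : (0 : ℝ) < n := by linarith
    positivity
  have h18 : 0 < ε * (n : ℝ) ^ 6 := mul_pos hε h17
  rw [h16] at h15
  have h19 : ε / 1200 * (n : ℝ) ^ 6 = ε * (n : ℝ) ^ 6 / 1200 := by ring
  rw [h19]
  linarith

end Pool.Agent.Results.MP_f1799f_co.FourteenEdgesUnavoidable
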