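import Pool.Agent.Helper319.LargeCodeg4

/-!
# Large codegrees in `K_4^3`-free 3-graphs

The pairs of vertices of very large codegree in a `K_4^3`-free 3-graph on `n` vertices are counted
up to a factor `1 + o(1)`: for small `ε` at most `(1 + o(1)) ε n^2` pairs have codegree at least
`(1 - ε) n`, and this is attained up to the factor `1 - ε`.  For the `ℓ_p`-version of Turán's
(3,4)-problem this determines the behaviour for large `p`: the maximum of the sum of the `p`-th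
powers of the codegrees is `(1 + o(1)) n^(p+2) / (e p)` as `p → ∞`, uniformly in `n ≥ p^2`.
-/

set_option autoImplicit false
open Finset

namespace Pool.Agent.Results.MP_f1799f_co.LargeCodegrees

/-- The 3-graph `G` (a set of triples) has no four vertices spanning all four triples. -/
def K43Free {n : ℕ} (G : Finset (Finset (Fin n))) : Prop :=
  ∀ S : Finset (Fin n), S.card = 4 → ∃ s ⊆ S, s.card = 3 ∧ s ∉ G

/-- The number of edges of `G` containing `P`. -/
def codegree {n : ℕ} (G : Finset (Finset (Fin n))) (P : Finset (Fin n)) : ℕ :=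
  (G.filter (P ⊆ ·)).card

/-- Large codegrees in `K_4^3`-free 3-graphs.
(1), (2): the maximum of the sum of the `p`-th powers of the codegrees is
`(1 + o(1)) n^(p+2) / (e p)` as `p → ∞`; the upper bound holds for all `n`, the lower bound for
all `n ≥ p^2`.
(3), (4): the maximum number of pairs of codegree at least `(1 - ε) n` is `(1 + o(1)) ε n^2` as
`ε → 0`, up to an additive error of at most `2 n` in the lower bound. -/
theorem result :
    (∀ η : ℝ, 0 < η → ∃ p₀ : ℝ, 1 ≤ p₀ ∧ ∀ p : ℝ, p₀ ≤ p →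
      ∀ (n : ℕ) (G : Finset (Finset (Fin n))), (∀ e ∈ G, e.card = 3) → K43Free G →
        ∑ P ∈ (univ : Finset (Fin n)).powersetCard 2, (codegree G P : ℝ) ^ p ≤
          (1 + η) / (Real.exp 1 * p) * (n : ℝ) ^ (p + 2)) ∧
    (∀ η : ℝ, 0 < η → ∃ p₀ : ℝ, 1 ≤ p₀ ∧ ∀ p : ℝ, p₀ ≤ p → ∀ n : ℕ, p ^ 2 ≤ n →
      ∃ G : Finset (Finset (Fin n)), (∀ e ∈ G, e.card = 3) ∧ K43Free G ∧
        (1 - η) / (Real.exp 1 * p) * (n : ℝ) ^ (p + 2) ≤
          ∑ P ∈ (univ : Finset (Fin n)).powersetCard 2, (codegree G P : ℝ) ^ p) ∧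
    (∀ η : ℝ, 0 < η → ∃ ε₀ : ℝ, 0 < ε₀ ∧ ∀ ε : ℝ, 0 < ε → ε ≤ ε₀ →
      ∀ (n : ℕ) (G : Finset (Finset (Fin n))), (∀ e ∈ G, e.card = 3) → K43Free G →
        ((((univ : Finset (Fin n)).powersetCard 2).filter
          (fun P => (1 - ε) * (n : ℝ) ≤ codegree G P)).card : ℝ) ≤ (1 + η) * ε * (n : ℝ) ^ 2) ∧
    (∀ ε : ℝ, 0 < ε → ε < 1 → ∀ n : ℕ,
      ∃ G : Finset (Finset (Fin n)), (∀ e ∈ G, e.card = 3) ∧ K43Free G ∧
        (1 - ε) * ε * (n : ℝ) ^ 2 - 2 * n ≤ ((((univ : Finset (Fin n)).powersetCard 2).filter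
          (fun P => (1 - ε) * (n : ℝ) ≤ codegree G P)).card : ℝ)) := by
  refine ⟨fun η hη => ?_, fun η hη => ?_, fun η hη => ?_, fun ε hε hε1 n => ?_⟩
  · obtain ⟨p₀, h1, h2⟩ := Helper319.LC.upper hη
    exact ⟨p₀, h1, fun p hp n G h3 hF => h2 p hp n G h3 hF⟩
  · obtain ⟨p₀, h1, h2⟩ := Helper319.LC.lower hη
    exact ⟨p₀, h1, fun p hp n hn => h2 p hp n hn⟩
  · obtain ⟨ε₀, h1, h2⟩ := Helper319.LC.upper_count hη
    exact ⟨ε₀, h1, fun ε hε hle n G h3 hF => h2 ε hε hle n G h3 hF⟩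
  · exact Helper319.LC.lower_count hε hε1 n

end Pool.Agent.Results.MP_f1799f_co.LargeCodegrees
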