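import Pool.Agent.Q275.TC.DatR

/-!
# Turán's `(3,4)`-problem: 3-graphs whose link graphs have cut-rank at most three

Turán's conjecture says that a `K_4^3`-free 3-graph on `n` vertices has at most
`(5/9 + o(1)) C(n,3)` edges. The cut-rank of a division of the vertex set of a graph into two parts
`A`, `B` is the rank (over a given field) of the `A × B` submatrix of the adjacency matrix. Here the
conjecture is proved, together with stability, for the `K_4^3`-free 3-graphs all of whose link graphs
have cut-rank at most three for all divisions, over some field. It is enough that only `o(n^9)`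
submatrices with four rows and four (other) columns of the adjacency matrices of the link graphs have
the determinant `1` or `-1`. The link graphs of Turán's construction have cut-rank at most three over
every field (and cut-rank three for many divisions).

Outline: in each homogeneous blow-up without `K_4^3` of one of the two six-vertex 3-graphs of the
library's list `famM 0` there are a vertex `v` and such a submatrix of the link graph of `v`. This is
checked with decision trees (`Pool/Agent/Q275/TC/DatR.lean`); the rest is the theorem `mainG` of the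
library (blow-ups, Ramsey's theorem, sum of squares certificates with stability).
-/

set_option autoImplicit false
set_option maxRecDepth 100000
set_option maxHeartbeats 4000000
open Finset

namespace Pool.Agent.Results.MP_f1799f_co.LinkCutRank
open Pool.Agent.TH773.Turan34
open Pool.Agent.Y47.BU
open Pool.Agent.H122R2.N6 hiding K43Free
open Pool.Agent.TH773.ST

theorem row_inj : ∀ i j : Fin 4, (![1, 2, 3, 4] : Fin 4 → Fin 9) i = (![1, 2, 3, 4] : Fin 4 → Fin 9) j →
    i = j := by decide

theorem col_inj : ∀ i j : Fin 4, (![5, 6, 7, 8] : Fin 4 → Fin 9) i = (![5, 6, 7, 8] : Fin 4 → Fin 9) j →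
    i = j := by decide

theorem row_ne : ∀ i : Fin 4, (![1, 2, 3, 4] : Fin 4 → Fin 9) i ≠ 0 := by decide

theorem col_ne : ∀ i : Fin 4, (![5, 6, 7, 8] : Fin 4 → Fin 9) i ≠ 0 := by decide

theorem row_col : ∀ i j : Fin 4, (![1, 2, 3, 4] : Fin 4 → Fin 9) i ≠ (![5, 6, 7, 8] : Fin 4 → Fin 9) j := by
  decide

open scoped Classical

/-- The nine vertices `v`, `r i`, `c j` are different. -/
def Distinct {n : ℕ} (v : Fin n) (r c : Fin 4 → Fin n) : Prop :=
  Function.Injective r ∧ Function.Injective c ∧ (∀ i, r i ≠ v) ∧ (∀ j, c j ≠ v) ∧ ∀ i j, r i ≠ c j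

/-- The submatrix with the rows `r i` and the columns `c j` of the adjacency matrix of the link graph
of `v`. -/
noncomputable def linkMatrix (R : Type) [CommRing R] {n : ℕ} (H : Finset (Finset (Fin n)))
    (v : Fin n) (r c : Fin 4 → Fin n) : Matrix (Fin 4) (Fin 4) R :=
  Matrix.of fun i j => if ({v, r i, c j} : Finset (Fin n)) ∈ H then 1 else 0

/-- The number of such submatrices with the determinant `1` or `-1`. -/
noncomputable def unimodular {n : ℕ} (H : Finset (Finset (Fin n))) : ℕ :=
  ((univ : Finset (Fin n × (Fin 4 → Fin n) × (Fin 4 → Fin n))).filter fun z =>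
    Distinct z.1 z.2.1 z.2.2 ∧ IsUnit (linkMatrix ℤ H z.1 z.2.1 z.2.2).det).card

/-- The cut-rank over the field `K` of each division of the vertex set of each link graph of `H` is
at most three: the submatrices of the link graphs with four rows and four other columns are
singular. -/
def LinkCutRankLe3 (K : Type) [Field K] {n : ℕ} (H : Finset (Finset (Fin n))) : Prop :=
  ∀ (v : Fin n) (r c : Fin 4 → Fin n), Distinct v r c → (linkMatrix K H v r c).det = 0

theorem unimodular_eq_zero {K : Type} [Field K] {n : ℕ} {H : Finset (Finset (Fin n))}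
    (h : LinkCutRankLe3 K H) : unimodular H = 0 := by
  unfold unimodular
  rw [card_eq_zero, filter_eq_empty_iff]
  rintro ⟨v, r, c⟩ - ⟨h1, h2⟩
  have h3 := h v r c h1
  have h4 : (Int.castRingHom K) (linkMatrix ℤ H v r c).det = (linkMatrix K H v r c).det := by
    rw [RingHom.map_det]
    congr 1
    ext i j
    simp only [RingHom.mapMatrix_apply, Matrix.map_apply, linkMatrix, Matrix.of_apply]
    split_ifs <;> simp
  have h5 := h2.map (Int.castRingHom K)
  rw [h4, h3] at h5
  exact not_isUnit_zero h5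

/-- the determinant of the list of the entries -/
theorem det_eq (f : Fin 4 → Fin 4 → ℕ) : (Matrix.of fun i j => ((f i j : ℕ) : ℤ)).det =
    Pool.Agent.Q275.TC.det4 [f 0 0, f 0 1, f 0 2, f 0 3, f 1 0, f 1 1, f 1 2, f 1 3,
      f 2 0, f 2 1, f 2 2, f 2 3, f 3 0, f 3 1, f 3 2, f 3 3] := by
  simp [Matrix.det_succ_row_zero, Fin.sum_univ_succ, Pool.Agent.Q275.TC.det4,
    Pool.Agent.Q275.TC.mnr, Pool.Agent.Q275.TC.ent, Fin.succAbove]
  ring

theorem sS_le {n : ℕ} (H : Finset (Finset (Fin n))) :
    (sS (Pool.Agent.Q275.TC.PR.S (Fin n) (tri H))).card ≤ unimodular H := by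
  unfold unimodular
  refine card_le_card_of_injOn (fun f : Fin 9 → Fin n => (f 0, ![f 1, f 2, f 3, f 4],
    ![f 5, f 6, f 7, f 8])) ?_ ?_
  · intro f hf
    change Fin 9 → Fin n at f
    obtain ⟨hi0, hS⟩ := mem_sS.mp (mem_coe.mp hf)
    have hi : Function.Injective (f : Fin 9 → Fin n) := hi0
    have er : (![f 1, f 2, f 3, f 4] : Fin 4 → Fin n) = f ∘ ![1, 2, 3, 4] := by
      funext i; fin_cases i <;> rfl
    have ec : (![f 5, f 6, f 7, f 8] : Fin 4 → Fin n) = f ∘ ![5, 6, 7, 8] := by
      funext i; fin_cases i <;> rfl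
    refine mem_coe.mpr (mem_filter.mpr ⟨mem_univ _, ?_, ?_⟩)
    · change Distinct (f 0) ![f 1, f 2, f 3, f 4] ![f 5, f 6, f 7, f 8]
      rw [er, ec]
      exact ⟨hi.comp row_inj, hi.comp col_inj, fun i => hi.ne (row_ne i),
        fun i => hi.ne (col_ne i), fun i j => hi.ne (row_col i j)⟩
    · change IsUnit (linkMatrix ℤ H (f 0) ![f 1, f 2, f 3, f 4] ![f 5, f 6, f 7, f 8]).det
      have h0 : linkMatrix ℤ H (f 0) ![f 1, f 2, f 3, f 4] ![f 5, f 6, f 7, f 8] =
          Matrix.of fun i j => ((tri H (f 0) (![f 1, f 2, f 3, f 4] i)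
            (![f 5, f 6, f 7, f 8] j) : ℕ) : ℤ) := by
        ext i j
        simp only [linkMatrix, Matrix.of_apply]
        rcases (tri_sy H).b (f 0) (![f 1, f 2, f 3, f 4] i) (![f 5, f 6, f 7, f 8] j) with e | e
        · rw [e, if_neg]
          · rfl
          · rw [← tri_iff, e]; norm_num
        · rw [e, if_pos (tri_iff.mp e)]; rfl
      rw [h0, det_eq]
      rw [Int.isUnit_iff_natAbs_eq]
      exact Nat.eq_of_beq_eq_true hS
  · intro f _ f' _ h
    change Fin 9 → Fin n at f f'
    have h0 : f 0 = f' 0 := (Prod.mk.inj h).1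
    have hr := (Prod.mk.inj (Prod.mk.inj h).2).1
    have hc := (Prod.mk.inj (Prod.mk.inj h).2).2
    have e1 : f 1 = f' 1 := congrFun hr 0
    have e2 : f 2 = f' 2 := congrFun hr 1
    have e3 : f 3 = f' 3 := congrFun hr 2
    have e4 : f 4 = f' 4 := congrFun hr 3
    have e5 : f 5 = f' 5 := congrFun hc 0
    have e6 : f 6 = f' 6 := congrFun hc 1
    have e7 : f 7 = f' 7 := congrFun hc 2
    have e8 : f 8 = f' 8 := congrFun hc 3
    funext i
    fin_cases i
    exacts [h0, e1, e2, e3, e4, e5, e6, e7, e8]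

theorem turan_rank (K : Type) [Field K] {n : ℕ} (g : Fin n → Fin 3) :
    LinkCutRankLe3 K (turan g) := by
  intro v r c ⟨hr, hc, hrv, hcv, hrc⟩
  obtain ⟨i, -, j, -, hij, h1⟩ := exists_ne_map_eq_of_card_lt_of_maps_to
    (s := (univ : Finset (Fin 4))) (t := (univ : Finset (Fin 3))) (by simp)
    (f := fun i => g (r i)) (fun i _ => mem_univ _)
  refine Matrix.det_zero_of_row_eq hij ?_
  funext l
  simp only [linkMatrix, Matrix.of_apply]
  have h2 : ({v, r i, c l} : Finset (Fin n)) ∈ turan g ↔
      ({v, r j, c l} : Finset (Fin n)) ∈ turan g := by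
    rw [mem_turan (hrv i).symm (hcv l).symm (hrc i l), mem_turan (hrv j).symm (hcv l).symm
      (hrc j l)]
    have h1' : g (r i) = g (r j) := h1
    rw [h1']
  simp only [h2]

/-- (1) For every `ε > 0` there are `δ > 0` and `n0` such that every `K_4^3`-free 3-graph `H` on
`n ≥ n0` vertices for which at most `δ n^9` of the submatrices with four rows and four other columns
of the adjacency matrices of the link graphs have the determinant `1` or `-1` has at most
`(5/9 + ε) C(n,3)` edges, and satisfies `|H ∆ turan g| ≤ 1161216000 ((5/54) n³ - |H|) + ε n³` for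
some division `g` of the vertices into three classes. (2) In particular this is true if over some
field all divisions of the link graphs have cut-rank at most three. (3) Turán's construction is
`K_4^3`-free and its link graphs have cut-rank at most three over every field. -/
theorem result :
    (∀ ε : ℝ, 0 < ε → ∃ δ : ℝ, 0 < δ ∧ ∃ n0 : ℕ, ∀ n, n0 ≤ n → ∀ H : Finset (Finset (Fin n)),
      (∀ e ∈ H, e.card = 3) → K43Free H → (unimodular H : ℝ) ≤ δ * (n : ℝ) ^ 9 →
      (H.card : ℝ) ≤ (5 / 9 + ε) * (n.choose 3 : ℝ) ∧ ∃ g : Fin n → Fin 3,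
        ((symmDiff H (turan g)).card : ℝ) ≤
          1161216000 * (5 / 54 * (n : ℝ) ^ 3 - H.card) + ε * (n : ℝ) ^ 3) ∧
    (∀ ε : ℝ, 0 < ε → ∃ n0 : ℕ, ∀ n, n0 ≤ n → ∀ H : Finset (Finset (Fin n)),
      (∀ e ∈ H, e.card = 3) → K43Free H → (∃ (K : Type) (_ : Field K), LinkCutRankLe3 K H) →
      (H.card : ℝ) ≤ (5 / 9 + ε) * (n.choose 3 : ℝ) ∧ ∃ g : Fin n → Fin 3,
        ((symmDiff H (turan g)).card : ℝ) ≤
          1161216000 * (5 / 54 * (n : ℝ) ^ 3 - H.card) + ε * (n : ℝ) ^ 3) ∧
    (∀ (n : ℕ) (g : Fin n → Fin 3), K43Free (turan g) ∧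
      ∀ (K : Type) [Field K], LinkCutRankLe3 K (turan g)) := by
  have main : ∀ ε : ℝ, 0 < ε → ∃ δ : ℝ, 0 < δ ∧ ∃ n0 : ℕ, ∀ n, n0 ≤ n →
      ∀ H : Finset (Finset (Fin n)),
      (∀ e ∈ H, e.card = 3) → K43Free H → (unimodular H : ℝ) ≤ δ * (n : ℝ) ^ 9 →
      (H.card : ℝ) ≤ (5 / 9 + ε) * (n.choose 3 : ℝ) ∧ ∃ g : Fin n → Fin 3,
        ((symmDiff H (turan g)).card : ℝ) ≤
          1161216000 * (5 / 54 * (n : ℝ) ^ 3 - H.card) + ε * (n : ℝ) ^ 3 := by
    intro ε hε
    obtain ⟨δ, hδ, n0, h⟩ := Pool.Agent.Q275.TC.bound 0 Pool.Agent.Q275.TC.okPR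
      Pool.Agent.Q275.TC.okR hε
    refine ⟨δ, hδ, n0, fun n hn H h3 hK hs => h n hn H h3 hK ?_⟩
    exact le_trans (by exact_mod_cast sS_le H) hs
  refine ⟨main, ?_, fun n g => ⟨turan_free g, fun K _ => turan_rank K g⟩⟩
  intro ε hε
  obtain ⟨δ, hδ, n0, h⟩ := main ε hε
  refine ⟨n0, fun n hn H h3 hK hs => h n hn H h3 hK ?_⟩
  obtain ⟨K, _, hs⟩ := hs
  rw [unimodular_eq_zero hs]
  simp only [Nat.cast_zero]
  positivity

end Pool.Agent.Results.MP_f1799f_co.LinkCutRank
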