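import Pool.Agent.Q54.Tur.Many

/-!
# Turán's `(3,4)`-problem: unavoidable order-size pairs of Turán's construction

`k` vertices of Turán's construction which lie in two of the three classes, `a` of them in one class
and `k - a` in the following class, span `C(a,2) (k - a)` edges. Here a gap theorem is proved for
many of these pairs `(k, C(a,2) (k - a))`: a `K_4^3`-free 3-graph in which few sets of `k` vertices
span exactly this number of edges has edge density at most `5/9 - c` with a constant `c > 0`. So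
Turán's conjecture holds for these 3-graphs, with room to spare, and every `K_4^3`-free 3-graph with
edge density at least `5/9 - c` (in particular every extremal one, and every counterexample of
Turán's conjecture) contains a positive proportion of sets of `k` vertices with this number of edges.
This holds for `a ≤ 5` and every `k`, for every `a` if `k ≤ 8`, and for every pair which also occurs
in two explicit blow-ups with six independent classes (`Realised`).

Outline: if the 3-graph is close to Turán's construction, then nearly balanced classes yield many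
such sets. If it is not, then one of two patterns on six vertices has positive density (stability
with sums of squares certificates, a result of the starting repository), so there are large
homogeneous blow-ups of it: either all pairs of classes are empty, or there are two classes with
exactly the edges with two vertices in the first class. The numbers of edges spanned by `k` vertices
are `C(a,2) (k - a)` in the second case, and the values of a cubic form in the first case.
-/

set_option autoImplicit false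
set_option maxRecDepth 100000
open Finset
open scoped Classical

namespace Pool.Agent.Results.MP_f1799f_co.UnavoidableOrderSizes

/-- The 3-graph `H` has no four vertices spanning all four triples. -/
def K43Free {n : ℕ} (H : Finset (Finset (Fin n))) : Prop :=
  ∀ S : Finset (Fin n), S.card = 4 → ∃ s ⊆ S, s.card = 3 ∧ s ∉ H

/-- The number of sets of `k` vertices which span exactly `m` edges of `H`. -/
def spans {n : ℕ} (H : Finset (Finset (Fin n))) (k m : ℕ) : ℕ :=
  (((univ : Finset (Fin n)).powersetCard k).filter fun S =>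
    (H.filter fun e => e ⊆ S).card = m).card

/-- The gap theorem for the pair `(k, m)`: there are `c > 0` and `n0` such that every `K_4^3`-free
3-graph `H` on `n ≥ n0` vertices with at least `(5/9 - c) C(n,3)` edges has at least `c nᵏ` sets of
`k` vertices which span exactly `m` edges. -/
def Unavoidable (k m : ℕ) : Prop :=
  ∃ c : ℝ, 0 < c ∧ ∃ n0 : ℕ, ∀ n, n0 ≤ n → ∀ H : Finset (Finset (Fin n)),
    (∀ e ∈ H, e.card = 3) → K43Free H → (5 / 9 - c) * (n.choose 3 : ℝ) ≤ (H.card : ℝ) →
    c * (n : ℝ) ^ k ≤ (spans H k m : ℝ)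

/-- The edges of a 3-graph with twelve edges on six vertices. -/
def patternA : List (Fin 6 × Fin 6 × Fin 6) := [(0, 1, 2), (0, 1, 3), (0, 2, 3), (0, 1, 4),
  (1, 2, 4), (1, 3, 4), (2, 3, 4), (0, 1, 5), (1, 2, 5), (1, 3, 5), (2, 3, 5), (0, 4, 5)]

/-- The edges of a 3-graph with thirteen edges on six vertices. -/
def patternB : List (Fin 6 × Fin 6 × Fin 6) := [(0, 1, 2), (0, 1, 3), (1, 2, 3), (0, 1, 4),
  (0, 2, 4), (0, 3, 4), (2, 3, 4), (0, 2, 5), (1, 2, 5), (0, 3, 5), (1, 3, 5), (0, 4, 5), (1, 4, 5)]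

/-- The number of edges of the blow-up with independent classes of `x 0, ..., x 5` vertices. -/
def blowUpEdges (T : List (Fin 6 × Fin 6 × Fin 6)) (x : Fin 6 → ℕ) : ℕ :=
  (T.map fun t => x t.1 * x t.2.1 * x t.2.2).sum

/-- `k` vertices span exactly `m` edges in the two-class construction (`a` vertices in the first and
`b` in the second class, the edges are the triples with two vertices in the first class) and in
suitable blow-ups of both patterns. -/
def Realised (k m : ℕ) : Prop :=
  (∃ a b : ℕ, a + b = k ∧ a.choose 2 * b = m) ∧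
    (∃ x : Fin 6 → ℕ, ∑ i, x i = k ∧ blowUpEdges patternA x = m) ∧
    ∃ x : Fin 6 → ℕ, ∑ i, x i = k ∧ blowUpEdges patternB x = m

/-- Eleven more pairs, `(k, C(a,2) (k - a))` with `a ≥ 6`. -/
def more : List (ℕ × ℕ) := [(7, 15), (8, 21), (9, 28), (9, 42), (10, 36), (10, 56), (11, 45),
  (11, 72), (11, 75), (12, 55), (12, 90)]

theorem key {k m : ℕ} (hk : 3 ≤ k) (h : Realised k m) : Unavoidable k m := by
  obtain ⟨⟨a, b, hab, hm⟩, ⟨xA, hA, hqA⟩, ⟨xB, hB, hqB⟩⟩ := h
  exact Pool.Agent.Q54.Tur.many hk hab hm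
    (Pool.Agent.Q54.Tur.ramCrit hab hm xA xB hA hqA hB hqB)

theorem more_real : ∀ p ∈ more, 3 ≤ p.1 ∧ Realised p.1 p.2 := by
  intro p hp
  simp only [more, List.mem_cons, List.not_mem_nil, or_false] at hp
  rcases hp with rfl | rfl | rfl | rfl | rfl | rfl | rfl | rfl | rfl | rfl | rfl
  · exact ⟨by norm_num, ⟨6, 1, by decide, by decide⟩, ⟨![0, 1, 1, 2, 0, 3], by decide, by decide⟩,
      ⟨![0, 2, 1, 1, 1, 2], by decide, by decide⟩⟩
  · exact ⟨by norm_num, ⟨7, 1, by decide, by decide⟩, ⟨![0, 1, 1, 3, 0, 3], by decide, by decide⟩,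
      ⟨![0, 2, 1, 1, 1, 3], by decide, by decide⟩⟩
  · exact ⟨by norm_num, ⟨8, 1, by decide, by decide⟩, ⟨![0, 1, 1, 3, 0, 4], by decide, by decide⟩,
      ⟨![0, 2, 1, 1, 2, 3], by decide, by decide⟩⟩
  · exact ⟨by norm_num, ⟨7, 2, by decide, by decide⟩, ⟨![2, 2, 1, 2, 1, 1], by decide, by decide⟩,
      ⟨![2, 1, 1, 2, 1, 2], by decide, by decide⟩⟩
  · exact ⟨by norm_num, ⟨9, 1, by decide, by decide⟩, ⟨![0, 0, 3, 3, 0, 4], by decide, by decide⟩,
      ⟨![0, 0, 3, 3, 4, 0], by decide, by decide⟩⟩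
  · exact ⟨by norm_num, ⟨8, 2, by decide, by decide⟩, ⟨![1, 2, 2, 2, 1, 2], by decide, by decide⟩,
      ⟨![1, 2, 2, 2, 1, 2], by decide, by decide⟩⟩
  · exact ⟨by norm_num, ⟨10, 1, by decide, by decide⟩, ⟨![0, 0, 3, 3, 0, 5], by decide, by decide⟩,
      ⟨![0, 0, 3, 3, 5, 0], by decide, by decide⟩⟩
  · exact ⟨by norm_num, ⟨9, 2, by decide, by decide⟩, ⟨![1, 2, 2, 2, 2, 2], by decide, by decide⟩,
      ⟨![1, 2, 2, 2, 2, 2], by decide, by decide⟩⟩
  · exact ⟨by norm_num, ⟨6, 5, by decide, by decide⟩, ⟨![1, 3, 2, 2, 1, 2], by decide, by decide⟩,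
      ⟨![1, 3, 2, 2, 1, 2], by decide, by decide⟩⟩
  · exact ⟨by norm_num, ⟨11, 1, by decide, by decide⟩, ⟨![0, 1, 1, 5, 0, 5], by decide, by decide⟩,
      ⟨![0, 1, 3, 3, 4, 1], by decide, by decide⟩⟩
  · exact ⟨by norm_num, ⟨10, 2, by decide, by decide⟩, ⟨![1, 2, 3, 3, 0, 3], by decide, by decide⟩,
      ⟨![1, 2, 2, 2, 2, 3], by decide, by decide⟩⟩

theorem line0 {k a : ℕ} (ha : a ≤ 1) : Realised k (a.choose 2 * (k - a)) := by
  have h0 : a.choose 2 * (k - a) = 0 := by
    rw [Nat.choose_eq_zero_of_lt (by omega), Nat.zero_mul]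
  rw [h0]
  refine ⟨⟨0, k, by omega, by simp⟩, ⟨![k, 0, 0, 0, 0, 0], ?_, ?_⟩, ⟨![k, 0, 0, 0, 0, 0], ?_, ?_⟩⟩
  · simp [Fin.sum_univ_six]
  · simp [blowUpEdges, patternA]
  · simp [Fin.sum_univ_six]
  · simp [blowUpEdges, patternB]

theorem line2 {k : ℕ} (hk : 2 ≤ k) : Realised k (Nat.choose 2 2 * (k - 2)) := by
  obtain ⟨j, rfl⟩ := Nat.exists_eq_add_of_le hk
  refine ⟨⟨2, j, rfl, by simp⟩, ⟨![j, 0, 0, 0, 1, 1], ?_, ?_⟩, ⟨![j, 0, 0, 0, 1, 1], ?_, ?_⟩⟩
  · simp [Fin.sum_univ_six]; omega
  · simp [blowUpEdges, patternA]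
  · simp [Fin.sum_univ_six]; omega
  · simp [blowUpEdges, patternB]

theorem line3 {k : ℕ} (hk : 3 ≤ k) : Realised k (Nat.choose 3 2 * (k - 3)) := by
  obtain ⟨j, rfl⟩ := Nat.exists_eq_add_of_le hk
  refine ⟨⟨3, j, rfl, by simp⟩, ⟨![j, 1, 1, 1, 0, 0], ?_, ?_⟩, ⟨![j, 0, 0, 1, 1, 1], ?_, ?_⟩⟩
  · simp [Fin.sum_univ_six]; omega
  · simp [blowUpEdges, patternA]; ring
  · simp [Fin.sum_univ_six]; omega
  · simp [blowUpEdges, patternB]; ring

theorem line4 {k : ℕ} (hk : 5 ≤ k) : Realised k (Nat.choose 4 2 * (k - 4)) := by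
  obtain ⟨j, rfl⟩ := Nat.exists_eq_add_of_le hk
  refine ⟨⟨4, j + 1, by omega, by congr 1; omega⟩, ⟨![j, 1, 1, 1, 1, 1], ?_, ?_⟩,
    ⟨![2, j, 0, 1, 1, 1], ?_, ?_⟩⟩
  · simp [Fin.sum_univ_six]; omega
  · have e : 5 + j - 4 = j + 1 := by omega
    have e2 : Nat.choose 4 2 = 6 := by decide
    rw [e, e2]
    simp [blowUpEdges, patternA]; ring
  · simp [Fin.sum_univ_six]; omega
  · have e : 5 + j - 4 = j + 1 := by omega
    have e2 : Nat.choose 4 2 = 6 := by decide
    rw [e, e2]
    simp [blowUpEdges, patternB]; ring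

theorem line5 {k : ℕ} (hk : 6 ≤ k) : Realised k (Nat.choose 5 2 * (k - 5)) := by
  refine ⟨⟨5, k - 5, by omega, rfl⟩, ?_, ?_⟩
  · obtain ⟨j, rfl⟩ := Nat.exists_eq_add_of_le hk
    refine ⟨![j, 2, 1, 1, 1, 1], ?_, ?_⟩
    · simp [Fin.sum_univ_six]; omega
    · have e : 6 + j - 5 = j + 1 := by omega
      have e2 : Nat.choose 5 2 = 10 := by decide
      rw [e, e2]
      simp [blowUpEdges, patternA]; ring
  · by_cases h11 : 11 ≤ k
    · obtain ⟨j, rfl⟩ := Nat.exists_eq_add_of_le h11
      refine ⟨![1, 0, 3, 3, 4, j], ?_, ?_⟩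
      · simp [Fin.sum_univ_six]
      · have e : 11 + j - 5 = j + 6 := by omega
        have e2 : Nat.choose 5 2 = 10 := by decide
        rw [e, e2]
        simp [blowUpEdges, patternB]; ring
    · have h : k = 6 ∨ k = 7 ∨ k = 8 ∨ k = 9 ∨ k = 10 := by omega
      rcases h with rfl | rfl | rfl | rfl | rfl
      · exact ⟨![0, 2, 1, 1, 0, 2], by decide, by decide⟩
      · exact ⟨![1, 2, 1, 1, 1, 1], by decide, by decide⟩
      · exact ⟨![2, 1, 1, 1, 1, 2], by decide, by decide⟩
      · exact ⟨![1, 2, 1, 1, 2, 2], by decide, by decide⟩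
      · exact ⟨![1, 1, 2, 2, 2, 2], by decide, by decide⟩

theorem zero_real (k : ℕ) : Realised k 0 := by
  have := line0 (k := k) (a := 0) (by norm_num)
  simpa using this

theorem line {k a : ℕ} (ha : a ≤ 5) (hak : a ≤ k) : Realised k (a.choose 2 * (k - a)) := by
  by_cases e : k = a
  · rw [e, Nat.sub_self, Nat.mul_zero]
    exact zero_real _
  · have h : a ≤ 1 ∨ a = 2 ∨ a = 3 ∨ a = 4 ∨ a = 5 := by omega
    rcases h with h | rfl | rfl | rfl | rfl
    · exact line0 h
    · exact line2 (by omega)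
    · exact line3 (by omega)
    · exact line4 (by omega)
    · exact line5 (by omega)

theorem small {k a : ℕ} (hk : k ≤ 8) (hak : a ≤ k) : Realised k (a.choose 2 * (k - a)) := by
  by_cases ha : a ≤ 5
  · exact line ha hak
  · by_cases e : k = a
    · rw [e, Nat.sub_self, Nat.mul_zero]
      exact zero_real _
    · have h : (k = 7 ∧ a = 6) ∨ (k = 8 ∧ a = 6) ∨ (k = 8 ∧ a = 7) := by omega
      rcases h with ⟨rfl, rfl⟩ | ⟨rfl, rfl⟩ | ⟨rfl, rfl⟩
      · exact (more_real (7, 15) (by decide)).2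
      · have := line5 (k := 8) (by norm_num)
        have e1 : Nat.choose 5 2 * (8 - 5) = Nat.choose 6 2 * (8 - 6) := by decide
        rw [← e1]
        exact this
      · exact (more_real (8, 21) (by decide)).2

/-- The gap theorem holds for the pairs `(k, C(a,2) (k - a))` with `a ≤ 5`, or `k ≤ 8`, or in the
list `more`, and for all pairs `(k, m)` which are `Realised`. -/
theorem result :
    (∀ k a : ℕ, 3 ≤ k → a ≤ k → a ≤ 5 ∨ k ≤ 8 → Unavoidable k (a.choose 2 * (k - a))) ∧
    (∀ p ∈ more, Unavoidable p.1 p.2) ∧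
    ∀ k m : ℕ, 3 ≤ k → Realised k m → Unavoidable k m := by
  refine ⟨fun k a h3 hak h => ?_, fun p hp => ?_, fun k m h3 h => key h3 h⟩
  · rcases h with h | h
    · exact key h3 (line h hak)
    · exact key h3 (small h hak)
  · exact key (more_real p hp).1 (more_real p hp).2

end Pool.Agent.Results.MP_f1799f_co.UnavoidableOrderSizes
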